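import Pool.Agent.Helper70.OB.GoalsP

/-!
# PLG: there is no gap and no hole
-/

open MeasureTheory Set Metric Filter
open scoped ENNReal Topology

namespace Pool.Agent.Helper17.OB

private lemma smono {f f' : ℝ → ℝ} {c e : ℝ} (h : ∀ r ∈ Ioo c e, HasDerivAt f (f' r) r)
    (hp : ∀ r ∈ Ioo c e, 0 < f' r) : StrictMonoOn f (Ioo c e) := by
  refine strictMonoOn_of_deriv_pos (convex_Ioo c e)
    (fun r hr => (h r hr).continuousAt.continuousWithinAt) ?_
  intro r hr
  rw [interior_Ioo] at hr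
  rw [(h r hr).deriv]
  exact hp r hr

private lemma santi {f f' : ℝ → ℝ} {c e : ℝ} (h : ∀ r ∈ Ioo c e, HasDerivAt f (f' r) r)
    (hp : ∀ r ∈ Ioo c e, f' r < 0) : StrictAntiOn f (Ioo c e) := by
  refine strictAntiOn_of_deriv_neg (convex_Ioo c e)
    (fun r hr => (h r hr).continuousAt.continuousWithinAt) ?_
  intro r hr
  rw [interior_Ioo] at hr
  rw [(h r hr).deriv]
  exact hp r hr

private lemma mono {f f' : ℝ → ℝ} {c e : ℝ} (h : ∀ r ∈ Ioo c e, HasDerivAt f (f' r) r)
    (hp : ∀ r ∈ Ioo c e, 0 ≤ f' r) : MonotoneOn f (Ioo c e) := by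
  refine monotoneOn_of_deriv_nonneg (convex_Ioo c e)
    (fun r hr => (h r hr).continuousAt.continuousWithinAt) ?_ ?_
  · intro r hr
    rw [interior_Ioo] at hr
    exact (h r hr).differentiableAt.differentiableWithinAt
  · intro r hr
    rw [interior_Ioo] at hr
    rw [(h r hr).deriv]
    exact hp r hr

/-- a nondecreasing function with limit `0` at the right end is nonpositive -/
private lemma right_le {f : ℝ → ℝ} {c e : ℝ} (h : MonotoneOn f (Ioo c e))
    (hl : Tendsto f (𝓝[<] e) (𝓝 0)) : ∀ r ∈ Ioo c e, f r ≤ 0 := by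
  intro r hr
  have hev : ∀ᶠ x in 𝓝[<] e, f r ≤ f x := by
    filter_upwards [Ioo_mem_nhdsLT hr.2] with x hx
    exact h hr ⟨hr.1.trans hx.1, hx.2⟩ hx.1.le
  exact ge_of_tendsto hl hev

/-- a nondecreasing function with limit `0` at the left end is nonnegative -/
private lemma left_ge {f : ℝ → ℝ} {c e : ℝ} (h : MonotoneOn f (Ioo c e))
    (hl : Tendsto f (𝓝[>] c) (𝓝 0)) : ∀ r ∈ Ioo c e, 0 ≤ f r := by
  intro r hr
  have hev : ∀ᶠ x in 𝓝[>] c, f x ≤ f r := by
    filter_upwards [Ioo_mem_nhdsGT hr.1] with x hx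
    exact h ⟨hx.1, hx.2.trans hr.2⟩ hr hx.2.le
  exact le_of_tendsto hl hev

private lemma right_lt {f : ℝ → ℝ} {c e : ℝ} (h : StrictMonoOn f (Ioo c e))
    (hl : Tendsto f (𝓝[<] e) (𝓝 0)) : ∀ r ∈ Ioo c e, f r < 0 := by
  intro r hr
  have h1 : (r + e) / 2 ∈ Ioo c e := ⟨by linarith [hr.1, hr.2], by linarith [hr.2]⟩
  exact lt_of_lt_of_le (h hr h1 (by linarith [hr.2])) (right_le h.monotoneOn hl _ h1)

private lemma left_gt {f : ℝ → ℝ} {c e : ℝ} (h : StrictMonoOn f (Ioo c e))
    (hl : Tendsto f (𝓝[>] c) (𝓝 0)) : ∀ r ∈ Ioo c e, 0 < f r := by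
  intro r hr
  have h1 : (r + c) / 2 ∈ Ioo c e := ⟨by linarith [hr.1], by linarith [hr.1, hr.2]⟩
  exact lt_of_le_of_lt (left_ge h.monotoneOn hl _ h1) (h h1 hr (by linarith [hr.1]))

private lemma right_gt {f : ℝ → ℝ} {c e : ℝ} (h : StrictAntiOn f (Ioo c e))
    (hl : Tendsto f (𝓝[<] e) (𝓝 0)) : ∀ r ∈ Ioo c e, 0 < f r := by
  intro r hr
  have h1 : StrictMonoOn (fun x => - f x) (Ioo c e) := fun x hx y hy hxy => neg_lt_neg (h hx hy hxy)
  have h2 : Tendsto (fun x => - f x) (𝓝[<] e) (𝓝 0) := by simpa using hl.neg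
  have := right_lt h1 h2 r hr
  linarith

private lemma left_lt {f : ℝ → ℝ} {c e : ℝ} (h : StrictAntiOn f (Ioo c e))
    (hl : Tendsto f (𝓝[>] c) (𝓝 0)) : ∀ r ∈ Ioo c e, f r < 0 := by
  intro r hr
  have h1 : StrictMonoOn (fun x => - f x) (Ioo c e) := fun x hx y hy hxy => neg_lt_neg (h hx hy hxy)
  have h2 : Tendsto (fun x => - f x) (𝓝[>] c) (𝓝 0) := by simpa using hl.neg
  have := left_gt h1 h2 r hr
  linarith

theorem plg : Pool.Agent.Helper70.OB.PLG := by
  intro N a b V P φ d D ha hab hD hVb hPb halt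
  have hpos : ∀ r ∈ Ioo a b, 0 < r ^ N := fun r hr => pow_pos (lt_of_le_of_lt ha hr.1) N
  -- `d` is strictly increasing
  have hd : StrictMonoOn d (Ioo a b) :=
    smono (fun r hr => (hD r hr).2.2.2.1) (fun r hr => (hD r hr).2.2.2.2.1)
  have hφle : ∀ t₀ ∈ Ioo a b, φ t₀ ≤ 1 := by
    intro t₀ ht₀
    by_contra hcon
    push Not at hcon
    have hη : 0 < φ t₀ - 1 := by linarith
    -- right case
    have right : 0 ≤ d t₀ → False := by
      intro hd0
      have hsub : Ioo t₀ b ⊆ Ioo a b := fun x hx => ⟨ht₀.1.trans hx.1, hx.2⟩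
      have hmono : MonotoneOn φ (Ico t₀ b) := by
        refine monotoneOn_of_deriv_nonneg (convex_Ico t₀ b) ?_ ?_ ?_
        · intro r hr
          exact (hD r ⟨lt_of_lt_of_le ht₀.1 hr.1, hr.2⟩).2.2.1.continuousAt.continuousWithinAt
        · intro r hr
          rw [interior_Ico] at hr
          exact (hD r (hsub hr)).2.2.1.differentiableAt.differentiableWithinAt
        · intro r hr
          rw [interior_Ico] at hr
          rw [(hD r (hsub hr)).2.2.1.deriv]
          have := hd ht₀ (hsub hr) hr.1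
          exact div_nonneg (by linarith) (hpos r (hsub hr)).le
      have hφ : ∀ r ∈ Ioo t₀ b, φ t₀ ≤ φ r := fun r hr =>
        hmono ⟨le_refl _, ht₀.2⟩ ⟨hr.1.le, hr.2⟩ hr.1.le
      have hV : ∀ᶠ x in 𝓝[<] b, V x < φ t₀ - 1 := hVb.eventually (gt_mem_nhds hη)
      have hev : ∀ᶠ x in 𝓝[<] b, x ∈ Ioo t₀ b := Ioo_mem_nhdsLT ht₀.2
      obtain ⟨c, hc, hcs⟩ := (mem_nhdsLT_iff_exists_Ioo_subset' ht₀.2).1 (hV.and hev)
      have hsub2 : Ioo c b ⊆ Ioo a b := fun x hx => hsub (hcs hx).2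
      have hPanti : StrictAntiOn P (Ioo c b) :=
        santi (fun r hr => (hD r (hsub2 hr)).2.1) (fun r hr => by
          have h1 := (hcs hr).1
          have h2 := hφ r (hcs hr).2
          exact mul_neg_of_pos_of_neg (hpos r (hsub2 hr)) (by linarith))
      have hPpos := right_gt hPanti hPb
      have hVmono : StrictMonoOn V (Ioo c b) :=
        smono (fun r hr => (hD r (hsub2 hr)).1)
          (fun r hr => div_pos (hPpos r hr) (hpos r (hsub2 hr)))
      have hVneg := right_lt hVmono hVb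
      have hc' : c < b := hc
      have hm : (c + b) / 2 ∈ Ioo c b := ⟨by linarith, by linarith⟩
      have h1 := hVneg _ hm
      have h2 := (hD _ (hsub2 hm)).2.2.2.2.2
      linarith
    -- left case
    have left : d t₀ < 0 → Tendsto V (𝓝[>] a) (𝓝 0) → Tendsto P (𝓝[>] a) (𝓝 0) → False := by
      intro hd0 hVa hPa
      have hsub : Ioo a t₀ ⊆ Ioo a b := fun x hx => ⟨hx.1, hx.2.trans ht₀.2⟩
      have hanti : AntitoneOn φ (Ioc a t₀) := by
        refine antitoneOn_of_deriv_nonpos (convex_Ioc a t₀) ?_ ?_ ?_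
        · intro r hr
          exact (hD r ⟨hr.1, lt_of_le_of_lt hr.2 ht₀.2⟩).2.2.1.continuousAt.continuousWithinAt
        · intro r hr
          rw [interior_Ioc] at hr
          exact (hD r (hsub hr)).2.2.1.differentiableAt.differentiableWithinAt
        · intro r hr
          rw [interior_Ioc] at hr
          rw [(hD r (hsub hr)).2.2.1.deriv]
          have := hd (hsub hr) ht₀ hr.2
          exact div_nonpos_of_nonpos_of_nonneg (by linarith) (hpos r (hsub hr)).le
      have hφ : ∀ r ∈ Ioo a t₀, φ t₀ ≤ φ r := fun r hr =>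
        hanti ⟨hr.1, hr.2.le⟩ ⟨ht₀.1, le_refl _⟩ hr.2.le
      have hV : ∀ᶠ x in 𝓝[>] a, V x < φ t₀ - 1 := hVa.eventually (gt_mem_nhds hη)
      have hev : ∀ᶠ x in 𝓝[>] a, x ∈ Ioo a t₀ := Ioo_mem_nhdsGT ht₀.1
      obtain ⟨c, hc, hcs⟩ := (mem_nhdsGT_iff_exists_Ioo_subset' ht₀.1).1 (hV.and hev)
      have hsub2 : Ioo a c ⊆ Ioo a b := fun x hx => hsub (hcs hx).2
      have hPanti : StrictAntiOn P (Ioo a c) :=
        santi (fun r hr => (hD r (hsub2 hr)).2.1) (fun r hr => by
          have h1 := (hcs hr).1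
          have h2 := hφ r (hcs hr).2
          exact mul_neg_of_pos_of_neg (hpos r (hsub2 hr)) (by linarith))
      have hPneg := left_lt hPanti hPa
      have hVanti : StrictAntiOn V (Ioo a c) :=
        santi (fun r hr => (hD r (hsub2 hr)).1)
          (fun r hr => div_neg_of_neg_of_pos (hPneg r hr) (hpos r (hsub2 hr)))
      have hVneg := left_lt hVanti hVa
      have hc' : a < c := hc
      have hm : (a + c) / 2 ∈ Ioo a c := ⟨by linarith, by linarith⟩
      have h1 := hVneg _ hm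
      have h2 := (hD _ (hsub2 hm)).2.2.2.2.2
      linarith
    rcases halt with ⟨hVa, hPa⟩ | ⟨ha0, -, hda⟩
    · rcases lt_or_ge (d t₀) 0 with h | h
      · exact left h hVa hPa
      · exact right h
    · subst ha0
      exact right (left_gt hd hda t₀ ht₀).le
  -- `P` vanishes
  have hPmono : MonotoneOn P (Ioo a b) :=
    mono (fun r hr => (hD r hr).2.1) (fun r hr => by
      have h1 := hφle r hr
      have h2 := (hD r hr).2.2.2.2.2
      exact mul_nonneg (hpos r hr).le (by linarith))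
  have hPa : Tendsto P (𝓝[>] a) (𝓝 0) := by
    rcases halt with ⟨-, hPa⟩ | ⟨ha0, hPa, -⟩
    · exact hPa
    · rw [ha0]; exact hPa
  have hP0 : ∀ r ∈ Ioo a b, P r = 0 := fun r hr =>
    le_antisymm (right_le hPmono hPb r hr) (left_ge hPmono hPa r hr)
  have hVφ : ∀ r ∈ Ioo a b, φ r = V r + 1 := by
    intro r hr
    have h1 : HasDerivAt P 0 r := by
      refine (hasDerivAt_const r (0 : ℝ)).congr_of_eventuallyEq ?_
      filter_upwards [Ioo_mem_nhds hr.1 hr.2] with x hx
      exact hP0 x hx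
    have h2 := (hD r hr).2.1.unique h1
    rcases mul_eq_zero.1 h2 with h3 | h3
    · exact absurd h3 (hpos r hr).ne'
    · linarith
  have hd0 : ∀ r ∈ Ioo a b, d r = 0 := by
    intro r hr
    have h1 : HasDerivAt φ 0 r := by
      have h2 : HasDerivAt (fun x => V x + 1) 0 r := by
        have h3 := (hD r hr).1.add_const 1
        rw [hP0 r hr, zero_div] at h3
        exact h3
      refine h2.congr_of_eventuallyEq ?_
      filter_upwards [Ioo_mem_nhds hr.1 hr.2] with x hx
      exact hVφ x hx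
    have h2 := (hD r hr).2.2.1.unique h1
    rcases div_eq_zero_iff.1 h2 with h3 | h3
    · exact h3
    · exact absurd h3 (hpos r hr).ne'
  have hm : (a + b) / 2 ∈ Ioo a b := ⟨by linarith, by linarith⟩
  have hm2 : (a + 2 * b) / 3 ∈ Ioo a b := ⟨by linarith, by linarith⟩
  have := hd hm hm2 (by linarith)
  rw [hd0 _ hm, hd0 _ hm2] at this
  exact lt_irrefl _ this

end Pool.Agent.Helper17.OB
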